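import Pool.Agent.Helper43.NG.Spec

/-! helper3: part PTB of swarm NG -/

set_option autoImplicit false

namespace Pool.Agent.Helper3.NG

open Pool.Agent.Helper43.NG
open scoped Pointwise

universe u

theorem ptb (hA : S_PTA.{u}) : S_PTB.{u} := by
  intro G _ E h1 C δ η l hδ hη hl
  obtain ⟨hmono, happ, htr, -, -⟩ := hA G E h1
  have blk : ∀ i < δ, Path E (η i) ((l i).map (η i * ·)) (η i)
      (C * ((l i).map (η i * ·)).length) := by
    intro i hi
    have := htr (η i) 1 (l i) 1 _ (hl i hi)
    simpa using this
  have main : ∀ d, d + 1 ≤ δ →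
      Path E (η 0) ((List.range (d + 1)).flatMap fun i => (l i).map (η i * ·)) (η d)
      (C * ((List.range (d + 1)).flatMap fun i => (l i).map (η i * ·)).length + d) := by
    intro d
    induction d with
    | zero =>
      intro h
      have := blk 0 (by omega)
      simpa using this
    | succ d ih =>
      intro h
      have h2 := ih (by omega)
      have h3 := blk (d + 1) (by omega)
      have h4 : Path E (η d) [] (η (d + 1)) 1 := by
        show (η d)⁻¹ * η (d + 1) ∈ E ^ 1
        rw [pow_one]; exact hη d (by omega)
      have h5 := happ _ _ _ _ _ _ _ h2 (happ _ _ _ _ _ _ _ h4 h3)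
      rw [List.range_succ, List.flatMap_append]
      have h6 : [d + 1].flatMap (fun i => (l i).map (η i * ·)) = (l (d + 1)).map (η (d + 1) * ·) := by
        simp
      rw [h6]
      refine hmono _ _ _ _ _ h5 ?_
      rw [List.length_append]
      ring_nf
      omega
  obtain ⟨d, rfl⟩ : ∃ d, δ = d + 1 := ⟨δ - 1, by omega⟩
  exact main d le_rfl

end Pool.Agent.Helper3.NG
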