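import Pool.Agent.Helper43.NG.Spec

/-! helper3: part REC of swarm NG -/

set_option autoImplicit false

namespace Pool.Agent.Helper3.NG

open Pool.Agent.Helper43.NG
open scoped Pointwise

universe u

variable {G : Type u} [Group G]

/-- an element of `L ^ n` is a product of `n` elements of `L` -/
theorem exists_hw (L : Set G) (h1 : (1 : G) ∈ L) : ∀ (n : ℕ) (h : G), h ∈ L ^ n →
    ∃ s : ℕ → G, (∀ i, s i ∈ L) ∧ hw s n = h := by
  intro n
  induction n with
  | zero =>
    intro h hh
    rw [pow_zero] at hh
    refine ⟨fun _ => 1, fun _ => h1, ?_⟩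
    simpa [hw] using (Set.mem_one.1 hh).symm
  | succ n ih =>
    intro h hh
    rw [pow_succ] at hh
    obtain ⟨a, ha, b, hb, rfl⟩ := Set.mem_mul.1 hh
    obtain ⟨s, hs, hsn⟩ := ih a ha
    refine ⟨fun i => if i < n then s i else b, ?_, ?_⟩
    · intro i
      by_cases hi : i < n
      · simpa [hi] using hs i
      · simpa [hi] using hb
    · have : ∀ m, m ≤ n → hw (fun i => if i < n then s i else b) m = hw s m := by
        intro m
        induction m with
        | zero => intro _; rfl
        | succ m ihm =>
          intro hm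
          show hw (fun i => if i < n then s i else b) m * (if m < n then s m else b) = hw s m * s m
          rw [ihm (by omega), if_pos (by omega)]
      show hw (fun i => if i < n then s i else b) n * (if n < n then s n else b) = a * b
      rw [this n le_rfl, if_neg (by omega), hsn]

theorem hw_mem (L : Set G) (s : ℕ → G) (hs : ∀ i, s i ∈ L) : ∀ n, hw s n ∈ L ^ n := by
  intro n
  induction n with
  | zero => simp [hw]
  | succ n ih => rw [pow_succ]; exact Set.mul_mem_mul ih (hs n)

theorem hw_diff (L : Set G) (s : ℕ → G) (hs : ∀ i, s i ∈ L) (j : ℕ) :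
    ∀ m, (hw s j)⁻¹ * hw s (j + m) ∈ L ^ m := by
  intro m
  induction m with
  | zero => simp
  | succ m ih =>
    rw [pow_succ]
    have : (hw s j)⁻¹ * hw s (j + (m + 1)) = ((hw s j)⁻¹ * hw s (j + m)) * s (j + m) := by
      show (hw s j)⁻¹ * (hw s (j + m) * s (j + m)) = _
      group
    rw [this]
    exact Set.mul_mem_mul ih (hs _)

theorem inv_mem_pow (L : Set G) (hL : L⁻¹ = L) (n : ℕ) (x : G) (hx : x ∈ L ^ n) :
    x⁻¹ ∈ L ^ n := by
  have : x⁻¹ ∈ (L ^ n)⁻¹ := Set.inv_mem_inv.2 hx
  rwa [← inv_pow, hL] at this

theorem pow_sub_pow (L E : Set G) (h : L ⊆ E) (n : ℕ) : L ^ n ⊆ E ^ n :=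
  Set.pow_subset_pow_left h

theorem pow_mem_sub (L : Set G) (H : Subgroup G) (h : L ⊆ H) : ∀ (n : ℕ) (x : G), x ∈ L ^ n →
    x ∈ H := by
  intro n
  induction n with
  | zero =>
    intro x hx
    rw [pow_zero] at hx
    rw [Set.mem_one.1 hx]; exact H.one_mem
  | succ n ih =>
    intro x hx
    rw [pow_succ] at hx
    obtain ⟨a, ha, b, hb, rfl⟩ := Set.mem_mul.1 hx
    exact H.mul_mem (ih a ha) (h hb)

omit [Group G] in
theorem length_ge (δ : ℕ) (f : ℕ → List (G × G)) (hf : ∀ i < δ, f i ≠ []) :
    δ ≤ ((List.range δ).flatMap f).length := by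
  induction δ with
  | zero => simp
  | succ d ih =>
    rw [List.range_succ, List.flatMap_append, List.length_append]
    have h1 := ih (fun i hi => hf i (by omega))
    have h2 : 1 ≤ ([d].flatMap f).length := by
      have : [d].flatMap f = f d := by simp
      rw [this]
      exact List.length_pos_iff.2 (hf d (by omega))
    omega

theorem rec' (hA : S_PTA.{u}) (hB : S_PTB.{u}) : S_REC.{u} := by
  intro G _ k m L N H E Gd hmk hE1 h1 h2 h3 h4 h5
  obtain ⟨hmono, happ, htr, -, -⟩ := hA G E hE1
  -- monotonicity of N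
  have Nle : ∀ l, m < l → l ≤ k + 1 → N l ≤ N (m + 1) := by
    intro l hl
    induction l, hl using Nat.le_induction with
    | base => intro _; exact le_rfl
    | succ l hl ih =>
      intro hlk
      exact le_trans (h1 l hl (by omega)).2.2.2.2.2.1 (ih (by omega))
  -- normalisation
  have nrm : ∀ l, m < l → l ≤ k → ∀ g ∈ N (m + 1), ∀ x ∈ N (l + 1), g * x * g⁻¹ ∈ N (l + 1) := by
    intro l hl hlk g hg x hx
    have := h3 l hl hlk g hg x ((h1 l hl hlk).2.2.2.2.2.1 hx)
    have e : g * x * g⁻¹ = (g * x * g⁻¹ * x⁻¹) * x := by group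
    rw [e]
    exact (N (l + 1)).mul_mem this hx
  -- downward induction
  have key : ∀ r l, m < l → l + r = k + 1 → ∀ w : G,
      (∀ l', m < l' → l' ≤ k → ∀ h ∈ H l', w * h * w⁻¹ * h⁻¹ ∈ N (l' + 1)) →
      (∃ n ∈ N l, Gd (n * w)) →
      ∃ P : List (G × G), P ≠ [] ∧
        (∀ p ∈ P, p.1 ∈ H l ∧ p.2 ∈ H l ∧ Gd (p.1⁻¹ * w * p.2)) ∧
        P.Pairwise (fun p q => ¬ Gd (q.1⁻¹ * w * p.2)) ∧
        Path E 1 (P.map Prod.fst) 1 (4 * (k + 1 - l) * P.length) ∧
        Path E 1 (P.map Prod.snd) 1 (4 * (k + 1 - l) * P.length) := by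
    intro r
    induction r with
    | zero =>
      intro l hl hr w hcw ⟨n, hn, hg⟩
      have hlk : l = k + 1 := by omega
      subst hlk
      have hgw : Gd w := by
        have := h5 n⁻¹ ((N (k + 1)).inv_mem hn) _ hg
        simpa using this
      refine ⟨[(1, 1)], by simp, ?_, by simp, ?_, ?_⟩
      · intro p hp
        simp only [List.mem_singleton] at hp
        subst hp
        refine ⟨(H _).one_mem, (H _).one_mem, ?_⟩
        simpa using hgw
      · show Path E 1 [1] 1 _
        refine ⟨0, 0, by simp, ?_, by simp⟩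
        show (1 : G)⁻¹ * 1 ∈ E ^ 0
        simp
      · show Path E 1 [1] 1 _
        refine ⟨0, 0, by simp, ?_, by simp⟩
        show (1 : G)⁻¹ * 1 ∈ E ^ 0
        simp
    | succ r ih =>
      intro l hl hr w hcw ⟨n₀, hn₀, hg₀⟩
      have hlk : l ≤ k := by omega
      obtain ⟨hL1, hLinv, hLE, hLH, hHle, hNle, hHN⟩ := h1 l hl hlk
      have hHN' : H (l + 1) ≤ N (l + 1) := by
        rcases Nat.lt_or_ge l k with h | h
        · exact (h1 (l + 1) (by omega) (by omega)).2.2.2.2.2.2
        · have : l = k := by omega
          subst this; exact h2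
      have hNm : N l ≤ N (m + 1) := Nle l hl (by omega)
      have hHm : H l ≤ N (m + 1) := le_trans hHN hNm
      have hN1m : N (l + 1) ≤ N (m + 1) := Nle (l + 1) (by omega) (by omega)
      -- minimal length
      have hex : ∃ δ : ℕ, ∃ h ∈ (L l) ^ δ, ∃ n ∈ N (l + 1), Gd (n * (h * w)) := by
        obtain ⟨n', h', hh', hs⟩ := h4 l hl hlk n₀ hn₀
        refine ⟨n', h', hh', n₀ * h'⁻¹, hs, ?_⟩
        have : n₀ * h'⁻¹ * (h' * w) = n₀ * w := by group
        rw [this]; exact hg₀
      classical
      obtain ⟨δ, ⟨h, hh, n₁, hn₁, hg₁⟩, hmin⟩ :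
          ∃ δ : ℕ, (∃ h ∈ (L l) ^ δ, ∃ n ∈ N (l + 1), Gd (n * (h * w))) ∧
            ∀ δ' < δ, ¬ ∃ h ∈ (L l) ^ δ', ∃ n ∈ N (l + 1), Gd (n * (h * w)) :=
        ⟨Nat.find hex, Nat.find_spec hex, fun δ' hδ' => Nat.find_min hex hδ'⟩
      rcases Nat.eq_zero_or_pos δ with hδ | hδ
      · -- δ = 0
        subst hδ
        rw [pow_zero] at hh
        have hh1 : h = 1 := Set.mem_one.1 hh
        subst hh1
        rw [one_mul] at hg₁
        obtain ⟨P, hP0, hP1, hP2, hP3, hP4⟩ := ih (l + 1) (by omega) (by omega) w hcw ⟨n₁, hn₁, hg₁⟩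
        refine ⟨P, hP0, ?_, hP2, ?_, ?_⟩
        · intro p hp
          obtain ⟨a, b, c⟩ := hP1 p hp
          exact ⟨hHle a, hHle b, c⟩
        · refine hmono _ _ _ _ _ hP3 ?_
          exact Nat.mul_le_mul_right _ (by omega)
        · refine hmono _ _ _ _ _ hP4 ?_
          exact Nat.mul_le_mul_right _ (by omega)
      · -- δ ≥ 1
        obtain ⟨s, hs, hsδ⟩ := exists_hw (L l) hL1 δ h hh
        have hhH : h ∈ H l := pow_mem_sub (L l) (H l) hLH δ h hh
        have hηH : ∀ j, hw s j ∈ H l := fun j =>
          pow_mem_sub (L l) (H l) hLH j _ (hw_mem (L l) s hs j)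
        -- the new words
        have hx : ∀ j, ∃ x ∈ N (m + 1), ∃ n ∈ N (l + 1),
            (hw s j)⁻¹ * w * (h * hw s j) = x * w ∧ x = n * h := by
          intro j
          set η := hw s j with hη
          have hκ : h * η ∈ H l := (H l).mul_mem hhH (hηH j)
          have hn : w * (h * η) * w⁻¹ * (h * η)⁻¹ ∈ N (l + 1) := hcw l hl hlk _ hκ
          refine ⟨η⁻¹ * (w * (h * η) * w⁻¹), ?_, ?_⟩
          · have e : w * (h * η) * w⁻¹ = (w * (h * η) * w⁻¹ * (h * η)⁻¹) * (h * η) := by group
            rw [e]
            exact (N (m + 1)).mul_mem (hHm ((H l).inv_mem (hηH j)))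
              ((N (m + 1)).mul_mem (hN1m hn) (hHm hκ))
          · refine ⟨(η⁻¹ * (w * (h * η) * w⁻¹ * (h * η)⁻¹) * η⁻¹⁻¹) * (η⁻¹ * h * η⁻¹⁻¹ * h⁻¹),
              ?_, ?_, ?_⟩
            · refine (N (l + 1)).mul_mem ?_ ?_
              · exact nrm l hl hlk _ (hHm ((H l).inv_mem (hηH j))) _ hn
              · exact h3 l hl hlk _ (hHm ((H l).inv_mem (hηH j))) _ (hHN hhH)
            · group
            · group
        -- the condition for the new words
        have hwc : ∀ j, ∀ l', m < l' → l' ≤ k → ∀ g ∈ H l',
            ((hw s j)⁻¹ * w * (h * hw s j)) * g * ((hw s j)⁻¹ * w * (h * hw s j))⁻¹ * g⁻¹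
              ∈ N (l' + 1) := by
          intro j l' hl' hlk' g hg
          obtain ⟨x, hxm, n, hn, e, -⟩ := hx j
          rw [e]
          have e2 : x * w * g * (x * w)⁻¹ * g⁻¹ = (x * (w * g * w⁻¹ * g⁻¹) * x⁻¹) *
              (x * g * x⁻¹ * g⁻¹) := by group
          rw [e2]
          refine (N (l' + 1)).mul_mem (nrm l' hl' hlk' x hxm _ (hcw l' hl' hlk' g hg)) ?_
          exact h3 l' hl' hlk' x hxm g ((h1 l' hl' hlk').2.2.2.2.2.2 hg)
        have hwg : ∀ j, ∃ n ∈ N (l + 1), Gd (n * ((hw s j)⁻¹ * w * (h * hw s j))) := by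
          intro j
          obtain ⟨x, hxm, n, hn, e, e'⟩ := hx j
          refine ⟨n₁ * n⁻¹, (N (l + 1)).mul_mem hn₁ ((N (l + 1)).inv_mem hn), ?_⟩
          rw [e, e']
          have : n₁ * n⁻¹ * (n * h * w) = n₁ * (h * w) := by group
          rw [this]; exact hg₁
        -- the lists
        have hPj := fun j => ih (l + 1) (by omega) (by omega) _ (hwc j) (hwg j)
        choose Q hQ0 hQ1 hQ2 hQ3 hQ4 using hPj
        set F : ℕ → List (G × G) := fun j => (Q j).map fun p => (hw s j * p.1, h * hw s j * p.2)
          with hF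
        set P : List (G × G) := (List.range δ).flatMap F with hP
        have hlen : δ ≤ P.length := by
          refine length_ge δ F ?_
          intro i _ h0
          exact hQ0 i (List.map_eq_nil_iff.1 h0)
        -- the lists of first and second components
        have hfst : P.map Prod.fst =
            (List.range δ).flatMap fun i => ((Q i).map Prod.fst).map (hw s i * ·) := by
          rw [hP, List.map_flatMap]
          congr 1
          funext i
          simp [hF, Function.comp_def]
        have hsnd : P.map Prod.snd =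
            (List.range δ).flatMap fun i => ((Q i).map Prod.snd).map ((h * hw s i) * ·) := by
          rw [hP, List.map_flatMap]
          congr 1
          funext i
          simp [hF, Function.comp_def]
        have hpath1 := hB G E hE1 (4 * (k + 1 - (l + 1))) δ (fun i => hw s i)
          (fun i => (Q i).map Prod.fst) hδ
          (by
            intro i _
            have : (hw s i)⁻¹ * hw s (i + 1) = s i := by
              show (hw s i)⁻¹ * (hw s i * s i) = s i
              group
            simp only [this]
            exact hLE (hs i))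
          (by
            intro i _
            simpa using hQ3 i)
        have hpath2 := hB G E hE1 (4 * (k + 1 - (l + 1))) δ (fun i => h * hw s i)
          (fun i => (Q i).map Prod.snd) hδ
          (by
            intro i _
            have : (h * hw s i)⁻¹ * (h * hw s (i + 1)) = s i := by
              show (h * hw s i)⁻¹ * (h * (hw s i * s i)) = s i
              group
            simp only [this]
            exact hLE (hs i))
          (by
            intro i _
            simpa using hQ4 i)
        rw [← hfst] at hpath1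
        rw [← hsnd] at hpath2
        simp only [List.length_map] at hpath1 hpath2
        have hC : 4 * (k + 1 - l) = 4 * (k + 1 - (l + 1)) + 4 := by omega
        -- powers in E
        have hδ1 : hw s (δ - 1) ∈ (L l) ^ (δ - 1) := hw_mem (L l) s hs _
        refine ⟨P, ?_, ?_, ?_, ?_, ?_⟩
        · intro h0
          rw [h0] at hlen
          simp at hlen
          omega
        · intro p hp
          rw [hP, List.mem_flatMap] at hp
          obtain ⟨j, -, hp⟩ := hp
          rw [hF] at hp
          simp only [List.mem_map] at hp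
          obtain ⟨q, hq, rfl⟩ := hp
          obtain ⟨a, b, c⟩ := hQ1 j q hq
          refine ⟨(H l).mul_mem (hηH j) (hHle a),
            (H l).mul_mem ((H l).mul_mem hhH (hηH j)) (hHle b), ?_⟩
          have e : (hw s j * q.1)⁻¹ * w * (h * hw s j * q.2)
              = q.1⁻¹ * ((hw s j)⁻¹ * w * (h * hw s j)) * q.2 := by group
          simp only [e]
          exact c
        · rw [hP, List.pairwise_flatMap]
          refine ⟨?_, ?_⟩
          · intro j _
            rw [hF]
            simp only [List.pairwise_map]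
            refine (hQ2 j).imp ?_
            intro p q hpq hg
            apply hpq
            have e : (hw s j * q.1)⁻¹ * w * (h * hw s j * p.2)
                = q.1⁻¹ * ((hw s j)⁻¹ * w * (h * hw s j)) * p.2 := by group
            rw [← e]; exact hg
          · refine (List.pairwise_lt_range (n := δ)).imp_of_mem ?_
            intro j' j hj' hj hlt x hx' y hy' hg
            rw [List.mem_range] at hj' hj
            rw [hF] at hx' hy'
            simp only [List.mem_map] at hx' hy'
            obtain ⟨p, hp, rfl⟩ := hx'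
            obtain ⟨q, hq, rfl⟩ := hy'
            obtain ⟨-, hp2, -⟩ := hQ1 j' p hp
            obtain ⟨hq1, -, -⟩ := hQ1 j q hq
            simp only at hg
            -- z
            have hz1 : (hw s j)⁻¹ * h ∈ (L l) ^ (δ - j) := by
              have := hw_diff (L l) s hs j (δ - j)
              rwa [show j + (δ - j) = δ by omega, hsδ] at this
            have hz : (hw s j)⁻¹ * h * hw s j' ∈ (L l) ^ (δ - j + j') := by
              rw [pow_add]
              exact Set.mul_mem_mul hz1 (hw_mem (L l) s hs j')
            have hzH : (hw s j)⁻¹ * h * hw s j' ∈ H l :=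
              pow_mem_sub (L l) (H l) hLH _ _ hz
            have hy : h * hw s j' * p.2 ∈ H l :=
              (H l).mul_mem ((H l).mul_mem hhH (hηH j')) (hHle hp2)
            have hn := hcw l hl hlk _ hy
            refine hmin (δ - j + j') (by omega) ⟨_, hz,
              q.1⁻¹ * ((hw s j)⁻¹ * (w * (h * hw s j' * p.2) * w⁻¹ * (h * hw s j' * p.2)⁻¹) *
                (hw s j)⁻¹⁻¹) *
                (((hw s j)⁻¹ * h * hw s j') * p.2 * ((hw s j)⁻¹ * h * hw s j')⁻¹), ?_, ?_⟩
            · refine (N (l + 1)).mul_mem ((N (l + 1)).mul_mem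
                ((N (l + 1)).inv_mem (hHN' hq1)) ?_) ?_
              · exact nrm l hl hlk _ (hHm ((H l).inv_mem (hηH j))) _ hn
              · exact nrm l hl hlk _ (hHm hzH) _ (hHN' hp2)
            · convert hg using 1
              group
        · -- first path
          have hend : Path E (hw s (δ - 1)) [] 1 (δ - 1) := by
            show (hw s (δ - 1))⁻¹ * 1 ∈ E ^ (δ - 1)
            rw [mul_one]
            exact pow_sub_pow _ _ hLE _ (inv_mem_pow _ hLinv _ _ hδ1)
          have := happ _ _ _ _ _ _ _ hpath1 hend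
          rw [List.append_nil] at this
          have h0 : hw s 0 = 1 := rfl
          rw [h0] at this
          refine hmono _ _ _ _ _ this ?_
          rw [hC, add_mul]
          omega
        · -- second path
          have hstart : Path E 1 [] (h * hw s 0) δ := by
            show (1 : G)⁻¹ * (h * 1) ∈ E ^ δ
            rw [inv_one, one_mul, mul_one]
            exact pow_sub_pow _ _ hLE _ hh
          have hend : Path E (h * hw s (δ - 1)) [] 1 (δ + (δ - 1)) := by
            show (h * hw s (δ - 1))⁻¹ * 1 ∈ E ^ (δ + (δ - 1))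
            rw [mul_one]
            refine pow_sub_pow _ _ hLE _ (inv_mem_pow _ hLinv _ _ ?_)
            rw [pow_add]
            exact Set.mul_mem_mul hh hδ1
          have := happ _ _ _ _ _ _ _ (happ _ _ _ _ _ _ _ hstart hpath2) hend
          rw [List.append_nil, List.nil_append] at this
          refine hmono _ _ _ _ _ this ?_
          rw [hC, add_mul]
          omega
  intro l hl hlk w hcw hg
  exact key (k + 1 - l) l hl (by omega) w hcw hg

end Pool.Agent.Helper3.NG
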